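import Mathlib

set_option autoImplicit false

/-!
Third order expansions at `1`.
-/

namespace Pool.Agent.H950R2.SM9

open Real Complex MeasureTheory Filter Topology Set

theorem dslope_eq (f : ℂ → ℂ) (z : ℂ) : f z = f 1 + (z - 1) * dslope f 1 z := by
  have h := sub_smul_dslope f 1 z
  rw [smul_eq_mul] at h
  rw [h]
  ring

theorem expand3 {s : Set ℂ} (hs : s ∈ 𝓝 (1 : ℂ)) {f : ℂ → ℂ} (hf : DifferentiableOn ℂ f s) :
    ∃ f3 : ℂ → ℂ, DifferentiableOn ℂ f3 s ∧ ∀ z, f z = f 1 + deriv f 1 * (z - 1) +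
      deriv (dslope f 1) 1 * (z - 1) ^ 2 + (z - 1) ^ 3 * f3 z := by
  have h1 : DifferentiableOn ℂ (dslope f 1) s := (Complex.differentiableOn_dslope hs).2 hf
  have h2 : DifferentiableOn ℂ (dslope (dslope f 1) 1) s :=
    (Complex.differentiableOn_dslope hs).2 h1
  have h3 : DifferentiableOn ℂ (dslope (dslope (dslope f 1) 1) 1) s :=
    (Complex.differentiableOn_dslope hs).2 h2
  refine ⟨_, h3, fun z => ?_⟩
  have e1 := dslope_eq f z
  have e2 := dslope_eq (dslope f 1) z
  have e3 := dslope_eq (dslope (dslope f 1) 1) z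
  rw [dslope_same] at e2 e3
  rw [e1, e2, e3]
  ring

theorem exp_coeff (L : ℂ) :
    deriv (fun z : ℂ => Complex.exp (L * (z - 1))) 1 = L ∧
    deriv (dslope (fun z : ℂ => Complex.exp (L * (z - 1))) 1) 1 = L ^ 2 / 2 := by
  set K : ℂ → ℂ := fun z => Complex.exp (L * (z - 1)) with hK
  have hKd : ∀ z, HasDerivAt K (L * K z) z := by
    intro z
    have h1 : HasDerivAt (fun z : ℂ => L * (z - 1)) (L * 1) z :=
      ((hasDerivAt_id z).sub_const 1).const_mul L
    have h2 := h1.cexp
    rw [mul_one, mul_comm] at h2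
    exact h2
  have hK1 : K 1 = 1 := by simp [hK]
  have hKdiff : Differentiable ℂ K := fun z => (hKd z).differentiableAt
  have h1 : Differentiable ℂ (dslope K 1) := by
    rw [← differentiableOn_univ]
    exact (Complex.differentiableOn_dslope univ_mem).2 hKdiff.differentiableOn
  set K1 := dslope K 1 with hK1def
  have hd1 : Differentiable ℂ (deriv K1) := by
    rw [← differentiableOn_univ]
    exact h1.differentiableOn.deriv isOpen_univ
  have hfun : ∀ z, K z - 1 = (z - 1) * K1 z := by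
    intro z
    have := dslope_eq K z
    rw [this, hK1]
    ring
  have hder : ∀ z, L * K z = K1 z + (z - 1) * deriv K1 z := by
    intro z
    have a1 : HasDerivAt (fun z => (z - 1) * K1 z) (1 * K1 z + (z - 1) * deriv K1 z) z :=
      ((hasDerivAt_id z).sub_const 1).mul (h1 z).hasDerivAt
    have a2 : HasDerivAt (fun z => K z - 1) (L * K z) z := (hKd z).sub_const 1
    have a3 : (fun z => K z - 1) = fun z => (z - 1) * K1 z := funext hfun
    rw [a3] at a2
    have := a2.unique a1
    rw [this, one_mul]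
  constructor
  · rw [(hKd 1).deriv, hK1, mul_one]
  · have a1 : HasDerivAt (fun z => K1 z + (z - 1) * deriv K1 z)
        (deriv K1 1 + (1 * deriv K1 1 + (1 - 1) * deriv (deriv K1) 1)) 1 :=
      (h1 1).hasDerivAt.add (((hasDerivAt_id 1).sub_const 1).mul (hd1 1).hasDerivAt)
    have a2 : HasDerivAt (fun z => L * K z) (L * (L * K 1)) 1 := (hKd 1).const_mul L
    have a3 : (fun z => L * K z) = fun z => K1 z + (z - 1) * deriv K1 z := funext hder
    rw [a3] at a2
    have := a2.unique a1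
    rw [hK1] at this
    linear_combination -(this) / 2

/-- the expansion of the product at the pole -/
theorem expandF (H : ℂ → ℂ) (hH : DifferentiableOn ℂ H {s : ℂ | 0 < s.re}) (hH1 : H 1 = 1)
    (u L : ℂ) : ∃ G : ℂ → ℂ, (∀ z : ℂ, 0 < z.re → DifferentiableAt ℂ G z) ∧
      ∀ z : ℂ, z ≠ 1 → H z / (z - 1) ^ 3 * (u * Complex.exp (L * (z - 1))) =
        u / (z - 1) ^ 3 + u * (deriv H 1 + L) / (z - 1) ^ 2 +
        u * (deriv (dslope H 1) 1 + deriv H 1 * L + L ^ 2 / 2) / (z - 1) + G z := by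
  have hopen : IsOpen {s : ℂ | 0 < s.re} := isOpen_lt continuous_const Complex.continuous_re
  have hs : {s : ℂ | 0 < s.re} ∈ 𝓝 (1 : ℂ) := hopen.mem_nhds (by simp)
  obtain ⟨H3, hH3, eH⟩ := expand3 hs hH
  have hKd : Differentiable ℂ (fun z : ℂ => Complex.exp (L * (z - 1))) := by fun_prop
  obtain ⟨K3, hK3, eK⟩ := expand3 (s := univ) univ_mem hKd.differentiableOn
  obtain ⟨k1, k2⟩ := exp_coeff L
  rw [k1, k2] at eK
  rw [hH1] at eH
  simp only [sub_self, mul_zero, Complex.exp_zero] at eK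
  set h1 := deriv H 1 with hh1
  set h2 := deriv (dslope H 1) 1 with hh2
  refine ⟨fun z => u * (h1 * L ^ 2 / 2 + h2 * L + h2 * L ^ 2 / 2 * (z - 1) +
    H3 z * Complex.exp (L * (z - 1)) + (1 + h1 * (z - 1) + h2 * (z - 1) ^ 2) * K3 z), ?_, ?_⟩
  · intro z hz
    have d1 : DifferentiableAt ℂ H3 z := (hH3 z hz).differentiableAt (hopen.mem_nhds hz)
    have d2 : DifferentiableAt ℂ K3 z := (hK3 z (mem_univ z)).differentiableAt univ_mem
    fun_prop
  · intro z hz
    have hw : z - 1 ≠ 0 := sub_ne_zero.2 hz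
    have e1 := eH z
    have e2 := eK z
    beta_reduce
    generalize Complex.exp (L * (z - 1)) = E at e2 ⊢
    generalize H z = Hz at e1 ⊢
    generalize z - 1 = w at *
    rw [e1]
    field_simp
    rw [e2]
    ring

end Pool.Agent.H950R2.SM9
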