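import Mathlib

set_option autoImplicit false

/-!
Bounds for the Gamma function used in the asymptotic formula of `V_k`.
-/

namespace Pool.Agent.H950R2.SM9

open Real Complex MeasureTheory Filter Topology Set

/-- `|Γ(z)| ≤ Γ(Re z)` -/
theorem norm_gamma_le {z : ℂ} (hz : 0 < z.re) : ‖Complex.Gamma z‖ ≤ Real.Gamma z.re := by
  rw [Complex.Gamma_eq_integral hz, Real.Gamma_eq_integral hz, Complex.GammaIntegral]
  refine norm_integral_le_of_norm_le (Real.GammaIntegral_convergent hz) ?_
  refine (ae_restrict_mem measurableSet_Ioi).mono fun t ht => ?_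
  have ht0 : (0 : ℝ) < t := ht
  rw [norm_mul, Complex.norm_real, Real.norm_of_nonneg (Real.exp_pos _).le,
    Complex.norm_cpow_eq_rpow_re_of_pos ht0]
  simp

/-- log-convexity -/
theorem gamma_nat_add {n : ℕ} (hn : n ≠ 0) {x : ℝ} (hx : 0 < x) (hx' : x ≤ 1) :
    Real.Gamma (n + x) ≤ Real.Gamma n * (n : ℝ) ^ x := by
  have hn0 : (0 : ℝ) < n := Nat.cast_pos.mpr (Nat.pos_of_ne_zero hn)
  have h := Real.BohrMollerup.f_add_nat_le Real.convexOn_log_Gamma (fun {y} hy => by
    rw [Function.comp_apply, Real.Gamma_add_one hy.ne',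
      Real.log_mul hy.ne' (Real.Gamma_pos_of_pos hy).ne', add_comm, Function.comp_apply])
    hn hx hx'
  rw [Function.comp_apply, Function.comp_apply] at h
  have h1 : 0 < Real.Gamma (n + x) := Real.Gamma_pos_of_pos (by positivity)
  have h2 : 0 < Real.Gamma n := Real.Gamma_pos_of_pos hn0
  have h3 : Real.log (Real.Gamma n * (n : ℝ) ^ x) = Real.log (Real.Gamma n) + x * Real.log n := by
    rw [Real.log_mul h2.ne' (Real.rpow_pos_of_pos hn0 x).ne', Real.log_rpow hn0]
  rw [← h3] at h
  exact (Real.log_le_log_iff h1 (by positivity)).1 h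

/-- near `k + 1` -/
theorem gamma_near {k : ℕ} (hk : 1 ≤ k) {x : ℝ} (h1 : (k : ℝ) ≤ x)
    (h2 : x ≤ k + 1 + 1 / (2 * (1 + Real.log k))) :
    Real.Gamma x ≤ 2 * (k.factorial : ℝ) := by
  have hk0 : (1 : ℝ) ≤ k := by exact_mod_cast hk
  have hkp : (0 : ℝ) < k := by linarith
  have hl : 0 ≤ Real.log k := Real.log_nonneg hk0
  have hf : (0 : ℝ) < (k.factorial : ℝ) := by exact_mod_cast Nat.factorial_pos k
  have hG1 : Real.Gamma ((k : ℝ) + 1) = (k.factorial : ℝ) := Real.Gamma_nat_eq_factorial k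
  have hGk : Real.Gamma (k : ℝ) * k = (k.factorial : ℝ) := by
    rw [← hG1, Real.Gamma_add_one hkp.ne', mul_comm]
  rcases le_or_gt x (k + 1) with hx | hx
  · rcases eq_or_lt_of_le h1 with he | he
    · rw [← he]
      have : 0 < Real.Gamma (k : ℝ) := Real.Gamma_pos_of_pos hkp
      nlinarith
    · have h := gamma_nat_add (n := k) (by omega) (x := x - k) (by linarith) (by linarith)
      have e : (k : ℝ) + (x - k) = x := by ring
      rw [e] at h
      have h3 : (k : ℝ) ^ (x - k) ≤ k := by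
        calc (k : ℝ) ^ (x - k) ≤ (k : ℝ) ^ (1 : ℝ) :=
              Real.rpow_le_rpow_of_exponent_le hk0 (by linarith)
          _ = k := Real.rpow_one _
      have h4 : 0 < Real.Gamma (k : ℝ) := Real.Gamma_pos_of_pos hkp
      calc Real.Gamma x ≤ Real.Gamma k * (k : ℝ) ^ (x - k) := h
        _ ≤ Real.Gamma k * k := by gcongr
        _ = k.factorial := hGk
        _ ≤ 2 * (k.factorial : ℝ) := by linarith
  · have hr : 1 / (2 * (1 + Real.log k)) ≤ 1 / 2 := by
      rw [div_le_div_iff₀ (by linarith) (by norm_num)]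
      linarith
    have h := gamma_nat_add (n := k + 1) (by omega) (x := x - (k + 1)) (by linarith) (by linarith)
    push_cast at h
    have e : (k : ℝ) + 1 + (x - (k + 1)) = x := by ring
    rw [e, hG1] at h
    have h3 : ((k : ℝ) + 1) ^ (x - (k + 1)) ≤ 2 := by
      have hk1 : (0 : ℝ) < (k : ℝ) + 1 := by linarith
      rw [Real.rpow_def_of_pos hk1]
      have hlog : Real.log ((k : ℝ) + 1) ≤ 1 + Real.log k := by
        have : Real.log ((k : ℝ) + 1) ≤ Real.log (2 * k) := Real.log_le_log hk1 (by linarith)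
        rw [Real.log_mul (by norm_num) hkp.ne'] at this
        have h2 := Real.log_two_lt_d9
        linarith
      have hlog0 : 0 ≤ Real.log ((k : ℝ) + 1) := Real.log_nonneg (by linarith)
      have h5 : Real.log ((k : ℝ) + 1) * (x - (k + 1)) ≤ 1 / 2 := by
        calc Real.log ((k : ℝ) + 1) * (x - (k + 1)) ≤
              (1 + Real.log k) * (1 / (2 * (1 + Real.log k))) := by
              apply mul_le_mul hlog (by linarith) (by linarith) (by linarith)
          _ = 1 / 2 := by
              field_simp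
      have h6 : Real.exp (1 / 2) ≤ 2 := by
        have h7 : Real.exp (1 / 2) ^ 2 = Real.exp 1 := by
          rw [← Real.exp_nat_mul]; norm_num
        have h8 := Real.exp_one_lt_d9
        nlinarith [Real.exp_pos (1 / 2 : ℝ)]
      exact (Real.exp_le_exp.2 h5).trans h6
    calc Real.Gamma x ≤ (k.factorial : ℝ) * ((k : ℝ) + 1) ^ (x - (k + 1)) := h
      _ ≤ (k.factorial : ℝ) * 2 := by gcongr
      _ = _ := by ring

/-- shifting: `Γ(z+n) = Γ(z) * ∏ (z + j)` -/
theorem gamma_shift (z : ℂ) (hz : 0 < z.re) (n : ℕ) :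
    Complex.Gamma (z + n) = (∏ j ∈ Finset.range n, (z + j)) * Complex.Gamma z := by
  induction n with
  | zero => simp
  | succ n ih =>
    have hne : z + n ≠ 0 := by
      intro h
      have := congrArg Complex.re h
      simp at this
      have h2 : (0 : ℝ) ≤ n := Nat.cast_nonneg n
      linarith
    have e : z + ((n + 1 : ℕ) : ℂ) = z + n + 1 := by push_cast; ring
    rw [e, Complex.Gamma_add_one _ hne, ih, Finset.prod_range_succ]
    ring

/-- decay in vertical strips -/
theorem gamma_decay (z : ℂ) (hz : 1 ≤ z.re) :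
    ‖Complex.Gamma z‖ ≤ 256 * Real.Gamma (z.re + 8) / (1 + |z.im|) ^ 8 := by
  have hz0 : 0 < z.re := by linarith
  have h := gamma_shift z hz0 8
  have hb : ∀ j ∈ Finset.range 8, (1 + |z.im|) / 2 ≤ ‖z + (j : ℂ)‖ := by
    intro j _
    have h1 : 1 ≤ ‖z + (j : ℂ)‖ := by
      have h2 := Complex.abs_re_le_norm (z + (j : ℂ))
      have h3 : (z + (j : ℂ)).re = z.re + j := by simp
      rw [h3] at h2
      have h4 : (0 : ℝ) ≤ j := Nat.cast_nonneg j
      have h5 := le_abs_self (z.re + j)
      linarith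
    have h2 : |z.im| ≤ ‖z + (j : ℂ)‖ := by
      have h2 := Complex.abs_im_le_norm (z + (j : ℂ))
      have h3 : (z + (j : ℂ)).im = z.im := by simp
      rwa [h3] at h2
    linarith
  have hp : ((1 + |z.im|) / 2) ^ 8 ≤ ‖∏ j ∈ Finset.range 8, (z + (j : ℂ))‖ := by
    rw [norm_prod]
    calc ((1 + |z.im|) / 2) ^ 8 = ∏ _j ∈ Finset.range 8, ((1 + |z.im|) / 2) := by
          rw [Finset.prod_const, Finset.card_range]
      _ ≤ _ := Finset.prod_le_prod (fun _ _ => by positivity) hb
  have hG : ‖Complex.Gamma (z + ((8 : ℕ) : ℂ))‖ ≤ Real.Gamma (z.re + 8) := by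
    have h1 := norm_gamma_le (z := z + ((8 : ℕ) : ℂ)) (by simp; linarith)
    simpa using h1
  rw [h, norm_mul] at hG
  have h3 : ((1 + |z.im|) / 2) ^ 8 * ‖Complex.Gamma z‖ ≤ Real.Gamma (z.re + 8) :=
    (mul_le_mul_of_nonneg_right hp (norm_nonneg _)).trans hG
  have hpos : 0 < (1 + |z.im|) ^ 8 := by positivity
  rw [le_div_iff₀ hpos]
  have e : ((1 + |z.im|) / 2) ^ 8 = (1 + |z.im|) ^ 8 / 256 := by
    rw [div_pow]; norm_num
  rw [e] at h3
  linarith

/-- factorial bound -/
theorem gamma_fac (k : ℕ) (hk : 1 ≤ k) (x : ℝ) (h0 : 3 / 4 ≤ x) (h1 : x ≤ 2) :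
    Real.Gamma (x + k + 8) ≤ (10 * (k : ℝ)) ^ 9 * (k.factorial : ℝ) := by
  have hk0 : (1 : ℝ) ≤ k := by exact_mod_cast hk
  have hm : Real.Gamma (x + k + 8) ≤ Real.Gamma ((k : ℝ) + 10) := by
    apply Real.Gamma_strictMonoOn_Ici.monotoneOn
    · simp only [mem_Ici]; linarith
    · simp only [mem_Ici]; linarith
    · linarith
  have he : Real.Gamma ((k : ℝ) + 10) = ((k + 9).factorial : ℝ) := by
    rw [← Real.Gamma_nat_eq_factorial]
    push_cast
    congr 1
    ring
  rw [he] at hm
  refine hm.trans ?_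
  have h2 : (k + 9).factorial ≤ (10 * k) ^ 9 * k.factorial := by
    have h3 := Nat.factorial_mul_pow_le_factorial (m := k) (n := 9)
    have h4 : (k + 9).factorial = k.factorial * (k + 1).ascFactorial 9 :=
      (Nat.factorial_mul_ascFactorial k 9).symm
    rw [h4, mul_comm]
    apply Nat.mul_le_mul_right
    have h5 := Nat.ascFactorial_le_pow_add k 9
    refine h5.trans ?_
    apply Nat.pow_le_pow_left
    omega
  exact_mod_cast h2

end Pool.Agent.H950R2.SM9
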