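import Pool.Agent.H306R2.SM.Defs
import Pool.Agent.H306R2.ZetaGrowth
import Pool.Agent.H950R2.Shift3
import Pool.Agent.H950R2.SM9.Gam
import Pool.Agent.H950R2.SM9.Expand

set_option autoImplicit false

/-!
The integrand and its bounds.
-/

namespace Pool.Agent.H950R2.SM9

open Real Complex MeasureTheory Filter Topology Set
open Pool.Agent.H306R2 Pool.Agent.H306R2.SM

noncomputable section

/-- `(s-1)^3 ζ(s)^3 Γ(s+k)/k!` -/
def Hk (k : ℕ) (s : ℂ) : ℂ := Zt s ^ 3 * Complex.Gamma (s + k) / (k.factorial : ℂ)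

/-- the integrand -/
def Fk (k : ℕ) (u : ℝ) (s : ℂ) : ℂ := Hk k s / (s - 1) ^ 3 * (u : ℂ) ^ s

theorem Hk_diff (k : ℕ) : DifferentiableOn ℂ (Hk k) {s : ℂ | 0 < s.re} := by
  intro s hs
  have hs' : 0 < s.re := hs
  have h1 := Zt_differentiableAt hs'
  have h2 : DifferentiableAt ℂ Complex.Gamma (s + k) := by
    apply Complex.differentiableAt_Gamma
    intro m h
    have := congrArg Complex.re h
    simp at this
    have h3 : (0 : ℝ) ≤ k := Nat.cast_nonneg k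
    have h4 : (0 : ℝ) ≤ m := Nat.cast_nonneg m
    linarith
  have h3 : DifferentiableAt ℂ (fun s : ℂ => Complex.Gamma (s + k)) s :=
    DifferentiableAt.comp (g := Complex.Gamma) (f := fun s : ℂ => s + k) s h2 (by fun_prop)
  unfold Hk
  exact (((h1.pow 3).mul h3).div_const _).differentiableWithinAt

theorem Hk_one (k : ℕ) : Hk k 1 = 1 := by
  unfold Hk
  rw [Zt_one, one_pow, one_mul, add_comm, Complex.Gamma_nat_eq_factorial]
  apply div_self
  exact_mod_cast (Nat.factorial_pos k).ne'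

theorem cpow_u {u : ℝ} (hu : 0 < u) (s : ℂ) :
    (u : ℂ) ^ s = (u : ℂ) * Complex.exp ((Real.log u : ℂ) * (s - 1)) := by
  have hu' : (u : ℂ) ≠ 0 := by exact_mod_cast hu.ne'
  have e : s = 1 + (s - 1) := by ring
  rw [e, Complex.cpow_add _ _ hu', Complex.cpow_one, Complex.cpow_def_of_ne_zero hu',
    ← Complex.ofReal_log hu.le]
  congr 2
  ring

theorem Fk_bound (k : ℕ) (hk : 1 ≤ k) {u : ℝ} (hu : 0 < u) {z : ℂ} (h0 : 3 / 4 ≤ z.re)
    (h1 : z.re ≤ 2) {d : ℝ} (hd : 0 < d) (hdz : d ≤ ‖z - 1‖) :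
    ‖Fk k u z‖ ≤ 5038848 * (10 * (k : ℝ)) ^ 9 * u ^ z.re / d ^ 3 / (1 + |z.im|) ^ 2 := by
  have hfac : (0 : ℝ) < (k.factorial : ℝ) := by exact_mod_cast Nat.factorial_pos k
  have hk0 : (1 : ℝ) ≤ k := by exact_mod_cast hk
  set y := |z.im| with hy
  have hy0 : 0 ≤ y := abs_nonneg _
  have hz : ‖z‖ ≤ 2 + y := by
    have := Complex.norm_le_abs_re_add_abs_im z
    rw [abs_of_nonneg (by linarith : (0 : ℝ) ≤ z.re)] at this
    linarith
  have hZ : ‖Zt z‖ ≤ 27 * (1 + y) ^ 2 := by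
    have h2 := Zt_norm_le (s := z) (by linarith)
    have h3 : (‖z‖ + 1) ^ 2 ≤ (3 * (1 + y)) ^ 2 := by
      apply pow_le_pow_left₀ (by positivity)
      linarith
    nlinarith
  have hZ3 : ‖Zt z‖ ^ 3 ≤ (27 * (1 + y) ^ 2) ^ 3 := pow_le_pow_left₀ (norm_nonneg _) hZ 3
  have hG : ‖Complex.Gamma (z + k)‖ ≤
      256 * ((10 * (k : ℝ)) ^ 9 * (k.factorial : ℝ)) / (1 + y) ^ 8 := by
    have h2 := gamma_decay (z + k) (by simp; linarith)
    have e1 : (z + (k : ℂ)).re = z.re + k := by simp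
    have e2 : (z + (k : ℂ)).im = z.im := by simp
    rw [e1, e2] at h2
    refine h2.trans ?_
    have h3 := gamma_fac k hk z.re h0 h1
    gcongr
  have hU : ‖(u : ℂ) ^ z‖ = u ^ z.re := Complex.norm_cpow_eq_rpow_re_of_pos hu z
  have hUp : 0 < u ^ z.re := Real.rpow_pos_of_pos hu _
  have hdz3 : d ^ 3 ≤ ‖z - 1‖ ^ 3 := pow_le_pow_left₀ hd.le hdz 3
  unfold Fk Hk
  rw [norm_mul, norm_div, norm_div, norm_mul, norm_pow, norm_pow, hU]
  have hnf : ‖(k.factorial : ℂ)‖ = (k.factorial : ℝ) := by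
    rw [Complex.norm_natCast]
  rw [hnf]
  calc ‖Zt z‖ ^ 3 * ‖Complex.Gamma (z + ↑k)‖ / (k.factorial : ℝ) / ‖z - 1‖ ^ 3 * u ^ z.re
      ≤ (27 * (1 + y) ^ 2) ^ 3 *
        (256 * ((10 * (k : ℝ)) ^ 9 * (k.factorial : ℝ)) / (1 + y) ^ 8) / (k.factorial : ℝ) /
          d ^ 3 * u ^ z.re := by
        gcongr
    _ = 5038848 * (10 * (k : ℝ)) ^ 9 * u ^ z.re / d ^ 3 / (1 + y) ^ 2 := by
        field_simp
        ring

theorem one_add_sq_le {y : ℝ} : 1 + y ^ 2 ≤ (1 + |y|) ^ 2 := by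
  have h := sq_abs y
  have h2 := abs_nonneg y
  nlinarith

theorem Fk_cont (k : ℕ) {u : ℝ} (hu : 0 < u) {x : ℝ} (hx0 : 0 < x) (hx : x ≠ 1) :
    Continuous (fun y : ℝ => Fk k u ((x : ℂ) + (y : ℂ) * I)) := by
  have hopen : IsOpen {s : ℂ | 0 < s.re} := isOpen_lt continuous_const Complex.continuous_re
  rw [continuous_iff_continuousAt]
  intro y
  have hre : 0 < ((x : ℂ) + (y : ℂ) * I).re := by simpa using hx0
  have h1 : ContinuousAt (Hk k) ((x : ℂ) + (y : ℂ) * I) :=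
    ((Hk_diff k _ hre).differentiableAt (hopen.mem_nhds hre)).continuousAt
  have hne : (x : ℂ) + (y : ℂ) * I - 1 ≠ 0 := by
    intro h
    have := congrArg Complex.re h
    simp at this
    exact hx (by linarith)
  have hu' : (u : ℂ) ≠ 0 := by exact_mod_cast hu.ne'
  have h2 : ContinuousAt (fun s : ℂ => Fk k u s) ((x : ℂ) + (y : ℂ) * I) := by
    unfold Fk
    refine ContinuousAt.mul (ContinuousAt.div h1 (by fun_prop) (pow_ne_zero 3 hne)) ?_
    exact (continuousAt_const_cpow hu')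
  exact ContinuousAt.comp (f := fun y : ℝ => (x : ℂ) + (y : ℂ) * I) h2 (by fun_prop)

theorem Fk_line_bound (k : ℕ) (hk : 1 ≤ k) {u : ℝ} (hu : 0 < u) {x : ℝ} (h0 : 3 / 4 ≤ x)
    (h1 : x ≤ 2) {d : ℝ} (hd : 0 < d) (hdx : d ≤ |x - 1|) (y : ℝ) :
    ‖Fk k u ((x : ℂ) + (y : ℂ) * I)‖ ≤
      5038848 * (10 * (k : ℝ)) ^ 9 * u ^ x / d ^ 3 * (1 + y ^ 2)⁻¹ := by
  have hre : ((x : ℂ) + (y : ℂ) * I).re = x := by simp
  have him : ((x : ℂ) + (y : ℂ) * I).im = y := by simp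
  have hn : d ≤ ‖(x : ℂ) + (y : ℂ) * I - 1‖ := by
    have := Complex.abs_re_le_norm ((x : ℂ) + (y : ℂ) * I - 1)
    have e : ((x : ℂ) + (y : ℂ) * I - 1).re = x - 1 := by simp
    rw [e] at this
    linarith
  have h := Fk_bound k hk hu (z := (x : ℂ) + (y : ℂ) * I) (by rw [hre]; exact h0)
    (by rw [hre]; exact h1) hd hn
  rw [hre, him] at h
  refine h.trans ?_
  rw [div_eq_mul_inv _ ((1 + |y|) ^ 2)]
  have hux : 0 < u ^ x := Real.rpow_pos_of_pos hu _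
  apply mul_le_mul_of_nonneg_left _ (by positivity)
  exact inv_anti₀ (by positivity) one_add_sq_le

theorem Fk_integrable (k : ℕ) (hk : 1 ≤ k) {u : ℝ} (hu : 0 < u) {x : ℝ} (h0 : 3 / 4 ≤ x)
    (h1 : x ≤ 2) (hx : x ≠ 1) : Integrable (fun y : ℝ => Fk k u ((x : ℂ) + (y : ℂ) * I)) := by
  have hd : 0 < |x - 1| := abs_pos.2 (sub_ne_zero.2 hx)
  refine Integrable.mono' (integrable_inv_one_add_sq.const_mul
    (5038848 * (10 * (k : ℝ)) ^ 9 * u ^ x / |x - 1| ^ 3)) ?_ ?_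
  · exact (Fk_cont k hu (by linarith) hx).aestronglyMeasurable
  · exact Eventually.of_forall fun y => Fk_line_bound k hk hu h0 h1 hd le_rfl y

theorem Fk_line_integral (k : ℕ) (hk : 1 ≤ k) {u : ℝ} (hu : 0 < u) :
    ‖∫ y : ℝ, Fk k u (((3 / 4 : ℝ) : ℂ) + (y : ℂ) * I)‖ ≤
      5038848 * (10 * (k : ℝ)) ^ 9 * u ^ (3 / 4 : ℝ) * 64 * Real.pi := by
  have h := norm_integral_le_of_norm_le (integrable_inv_one_add_sq.const_mul
    (5038848 * (10 * (k : ℝ)) ^ 9 * u ^ (3 / 4 : ℝ) / (1 / 4 : ℝ) ^ 3))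
    (Eventually.of_forall fun y => Fk_line_bound k hk hu (x := 3 / 4) le_rfl (by norm_num)
      (d := 1 / 4) (by norm_num) (by norm_num [abs_of_neg]) y)
  refine h.trans (le_of_eq ?_)
  rw [integral_const_mul, integral_univ_inv_one_add_sq]
  ring

theorem rpow_le_two {u : ℝ} (hu : 0 < u) {x : ℝ} (h0 : 3 / 4 ≤ x) (h1 : x ≤ 2) :
    u ^ x ≤ u ^ (3 / 4 : ℝ) + u ^ (2 : ℝ) := by
  have a1 : 0 < u ^ (3 / 4 : ℝ) := Real.rpow_pos_of_pos hu _
  have a2 : 0 < u ^ (2 : ℝ) := Real.rpow_pos_of_pos hu _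
  rcases le_or_gt 1 u with h | h
  · have := Real.rpow_le_rpow_of_exponent_le h h1
    linarith
  · have := Real.rpow_le_rpow_of_exponent_ge hu h.le h0
    linarith

/-- the shifted contour -/
theorem shiftF (k : ℕ) (hk : 1 ≤ k) {u : ℝ} (hu : 0 < u) :
    (∫ y : ℝ, Fk k u (((2 : ℝ) : ℂ) + (y : ℂ) * I)) -
      (∫ y : ℝ, Fk k u (((3 / 4 : ℝ) : ℂ) + (y : ℂ) * I)) =
      2 * (Real.pi : ℂ) * ((u : ℂ) * (deriv (dslope (Hk k) 1) 1 +
        deriv (Hk k) 1 * (Real.log u : ℂ) + (Real.log u : ℂ) ^ 2 / 2)) := by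
  obtain ⟨G, hG, hF⟩ := expandF (Hk k) (Hk_diff k) (Hk_one k) (u : ℂ) (Real.log u : ℂ)
  set C : ℝ := 5038848 * (10 * (k : ℝ)) ^ 9 * (u ^ (3 / 4 : ℝ) + u ^ (2 : ℝ)) with hC
  have hC0 : 0 ≤ C := by positivity
  refine Shift3.shift3 (Fk k u) G _ ((u : ℂ) * (deriv (Hk k) 1 + (Real.log u : ℂ))) (u : ℂ)
    (3 / 4) 2 C (by norm_num) (by norm_num) ?_ ?_ ?_ ?_ ?_
  · intro z hz
    rw [← hF z hz, ← cpow_u hu]
    rfl
  · intro z hz _
    exact hG z (by linarith)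
  · intro z hz0 hz1 hz
    have hn : |z.im| ≤ ‖z - 1‖ := by
      have := Complex.abs_im_le_norm (z - 1)
      simpa using this
    have h := Fk_bound k hk hu hz0 hz1 (d := |z.im|) (by linarith) hn
    refine h.trans ?_
    have hb := rpow_le_two hu hz0 hz1
    have hy : (0 : ℝ) < |z.im| := by linarith
    have h1 : |z.im| ≤ |z.im| ^ 3 * (1 + |z.im|) ^ 2 := by
      have e1 : (1 : ℝ) ≤ |z.im| ^ 2 := one_le_pow₀ hz
      have e2 : (1 : ℝ) ≤ (1 + |z.im|) ^ 2 := one_le_pow₀ (by linarith)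
      have e3 : |z.im| ≤ |z.im| ^ 3 := by nlinarith
      nlinarith [pow_pos hy 3]
    rw [div_div]
    calc 5038848 * (10 * (k : ℝ)) ^ 9 * u ^ z.re / (|z.im| ^ 3 * (1 + |z.im|) ^ 2) ≤
        C / (|z.im| ^ 3 * (1 + |z.im|) ^ 2) := by
          rw [hC]
          gcongr
      _ ≤ C / |z.im| := by
          gcongr
  · exact Fk_integrable k hk hu (x := 3 / 4) le_rfl (by norm_num) (by norm_num)
  · exact Fk_integrable k hk hu (x := 2) (by norm_num) le_rfl (by norm_num)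

/-- bound near `1` -/
theorem Hk_near (k : ℕ) (hk : 1 ≤ k) {z : ℂ} (hz : ‖z - 1‖ ≤ 1 / (2 * (1 + Real.log k))) :
    ‖Hk k z‖ ≤ 14000 := by
  have hk0 : (1 : ℝ) ≤ k := by exact_mod_cast hk
  have hl : 0 ≤ Real.log k := Real.log_nonneg hk0
  have hfac : (0 : ℝ) < (k.factorial : ℝ) := by exact_mod_cast Nat.factorial_pos k
  have hr : 1 / (2 * (1 + Real.log k)) ≤ 1 / 2 := by
    rw [div_le_div_iff₀ (by linarith) (by norm_num)]
    linarith
  have hre := Complex.abs_re_le_norm (z - 1)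
  have e : (z - 1).re = z.re - 1 := by simp
  rw [e, abs_le] at hre
  have hre1 : 1 / 2 ≤ z.re := by linarith
  have hre2 : z.re ≤ 1 + 1 / (2 * (1 + Real.log k)) := by linarith
  have hnz : ‖z‖ ≤ 3 / 2 := by
    have h := norm_add_le (z - 1) 1
    rw [sub_add_cancel, norm_one] at h
    linarith
  have hZ : ‖Zt z‖ ≤ 75 / 4 := by
    have h2 := Zt_norm_le (s := z) hre1
    have h3 : (‖z‖ + 1) ^ 2 ≤ (5 / 2) ^ 2 := by
      apply pow_le_pow_left₀ (by positivity)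
      linarith
    nlinarith
  have hZ3 : ‖Zt z‖ ^ 3 ≤ (75 / 4) ^ 3 := pow_le_pow_left₀ (norm_nonneg _) hZ 3
  have hG : ‖Complex.Gamma (z + k)‖ ≤ 2 * (k.factorial : ℝ) := by
    have h1 : 0 < (z + (k : ℂ)).re := by
      simp; linarith
    refine (norm_gamma_le h1).trans ?_
    have e2 : (z + (k : ℂ)).re = z.re + k := by simp
    rw [e2]
    apply gamma_near hk
    · linarith
    · linarith
  unfold Hk
  rw [norm_div, norm_mul, norm_pow, Complex.norm_natCast]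
  rw [div_le_iff₀ hfac]
  calc ‖Zt z‖ ^ 3 * ‖Complex.Gamma (z + ↑k)‖ ≤ (75 / 4) ^ 3 * (2 * (k.factorial : ℝ)) := by
        gcongr
    _ ≤ 14000 * (k.factorial : ℝ) := by nlinarith

/-- Cauchy estimates -/
theorem coeff_bounds (k : ℕ) (hk : 1 ≤ k) :
    ‖deriv (Hk k) 1‖ ≤ 28000 * (1 + Real.log k) ∧
      ‖deriv (dslope (Hk k) 1) 1‖ ≤ 60000 * (1 + Real.log k) ^ 2 := by
  have hk0 : (1 : ℝ) ≤ k := by exact_mod_cast hk
  have hl : 0 ≤ Real.log k := Real.log_nonneg hk0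
  set r : ℝ := 1 / (2 * (1 + Real.log k)) with hr
  have hr0 : 0 < r := by positivity
  have hr1 : r ≤ 1 / 2 := by
    rw [hr, div_le_div_iff₀ (by linarith) (by norm_num)]
    linarith
  have hopen : IsOpen {s : ℂ | 0 < s.re} := isOpen_lt continuous_const Complex.continuous_re
  have hs : {s : ℂ | 0 < s.re} ∈ 𝓝 (1 : ℂ) := hopen.mem_nhds (by simp)
  have hsub : Metric.closedBall (1 : ℂ) r ⊆ {s : ℂ | 0 < s.re} := by
    intro z hz
    rw [Metric.mem_closedBall, dist_eq_norm] at hz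
    have hre := Complex.abs_re_le_norm (z - 1)
    have e : (z - 1).re = z.re - 1 := by simp
    rw [e, abs_le] at hre
    change 0 < z.re
    linarith
  have hd1 : DiffContOnCl ℂ (Hk k) (Metric.ball 1 r) :=
    ((Hk_diff k).mono hsub).diffContOnCl_ball subset_rfl
  have hd2 : DiffContOnCl ℂ (dslope (Hk k) 1) (Metric.ball 1 r) :=
    (((Complex.differentiableOn_dslope hs).2 (Hk_diff k)).mono hsub).diffContOnCl_ball subset_rfl
  have hb : ∀ z ∈ Metric.sphere (1 : ℂ) r, ‖Hk k z‖ ≤ 14000 := by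
    intro z hz
    rw [mem_sphere_iff_norm] at hz
    exact Hk_near k hk (by rw [hz])
  have h1 := Complex.norm_deriv_le_of_forall_mem_sphere_norm_le hr0 hd1 hb
  have hb2 : ∀ z ∈ Metric.sphere (1 : ℂ) r, ‖dslope (Hk k) 1 z‖ ≤ 15000 / r := by
    intro z hz
    have hz1 := hb z hz
    rw [mem_sphere_iff_norm] at hz
    have hne : z ≠ 1 := by
      rintro rfl
      rw [sub_self, norm_zero] at hz
      linarith
    rw [dslope_of_ne _ hne, slope_def_field, Hk_one, norm_div, hz]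
    have h3 : ‖Hk k z - 1‖ ≤ 15000 := by
      have := norm_sub_le (Hk k z) 1
      rw [norm_one] at this
      linarith
    gcongr
  have h2 := Complex.norm_deriv_le_of_forall_mem_sphere_norm_le hr0 hd2 hb2
  have hr' : 1 / r = 2 * (1 + Real.log k) := by
    rw [hr]
    field_simp
  constructor
  · refine h1.trans (le_of_eq ?_)
    calc (14000 : ℝ) / r = 14000 * (1 / r) := by ring
      _ = _ := by rw [hr']; ring
  · refine h2.trans (le_of_eq ?_)
    calc (15000 : ℝ) / r / r = 15000 * (1 / r) * (1 / r) := by ring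
      _ = _ := by rw [hr']; ring

end

end Pool.Agent.H950R2.SM9
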